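import Mathlib

namespace Pool.Agent.H.MP_33fb9b_co
open List

section
variable {α : Type} [DecidableEq α] (r : α → α → Prop)

def LX (S : Finset α) : Set (List α) :=
  {l | l.Nodup ∧ l.toFinset = S ∧ l.Pairwise (fun a b => ¬ r b a)}

def Mn (S : Finset α) (z : α) : Prop := z ∈ S ∧ ∀ w ∈ S, w ≠ z → ¬ r w z

theorem cons_mem (S : Finset α) (z : α) (l : List α) :
    z :: l ∈ LX r S ↔ Mn r S z ∧ l ∈ LX r (S.erase z) := by
  simp only [LX, Mn, Set.mem_ofPred_eq, nodup_cons, toFinset_cons, pairwise_cons]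
  constructor
  · rintro ⟨⟨h1, h2⟩, rfl, h3, h4⟩
    refine ⟨⟨by simp, fun w hw hne => h3 w (by simpa [hne] using hw)⟩, h2, ?_, h4⟩
    rw [Finset.erase_insert (by simpa using h1)]
  · rintro ⟨⟨h1, h2⟩, h3, h4, h5⟩
    have h6 : ∀ w, w ∈ l ↔ w ≠ z ∧ w ∈ S := fun w => by
      rw [← List.mem_toFinset, h4, Finset.mem_erase]
    refine ⟨⟨by simp [h6], h3⟩, by rw [h4, Finset.insert_erase h1], fun w hw => ?_, h5⟩
    exact h2 w ((h6 w).mp hw).2 ((h6 w).mp hw).1

theorem fin [Finite α] (S : Finset α) (Q : List α → Prop) : {l ∈ LX r S | Q l}.Finite := by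
  refine (List.finite_length_eq α S.card).subset ?_
  rintro l ⟨⟨h1, rfl, -⟩, -⟩
  exact (List.toFinset_card_of_nodup h1).symm

open Classical in
theorem two [Finite α] (S : Finset α) (hS : S.Nonempty) (a b : α) (hab : a ≠ b)
    (h : ∀ z, Mn r S z → z = a ∨ z = b) (Q : List α → Prop) :
    {l ∈ LX r S | Q l}.ncard =
      (if Mn r S a then {l ∈ LX r (S.erase a) | Q (a :: l)}.ncard else 0) +
      (if Mn r S b then {l ∈ LX r (S.erase b) | Q (b :: l)}.ncard else 0) := by
  have e : ∀ z, (if Mn r S z then {l ∈ LX r (S.erase z) | Q (z :: l)}.ncard else 0) =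
      (cons z '' {l ∈ LX r (S.erase z) | Mn r S z ∧ Q (z :: l)}).ncard := by
    intro z
    rw [Set.ncard_image_of_injective _ cons_injective]
    split_ifs with h1 <;> simp [h1]
  rw [e, e, ← Set.ncard_union_eq _ ((fin r _ _).image _) ((fin r _ _).image _)]
  · congr 1
    ext l
    cases l with
    | nil =>
      simp only [LX, Set.mem_ofPred_eq, toFinset_nil, Set.mem_union, Set.mem_image, reduceCtorEq,
        and_false, exists_false, or_self, iff_false]
      rintro ⟨⟨-, rfl, -⟩, -⟩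
      simp at hS
    | cons z l =>
      simp only [Set.mem_ofPred_eq, cons_mem, Set.mem_union, Set.mem_image, cons.injEq]
      constructor
      · rintro ⟨⟨h1, h2⟩, h3⟩
        rcases h z h1 with rfl | rfl
        · exact Or.inl ⟨l, ⟨h2, h1, h3⟩, rfl, rfl⟩
        · exact Or.inr ⟨l, ⟨h2, h1, h3⟩, rfl, rfl⟩
      · rintro (⟨l, ⟨h2, h1, h3⟩, rfl, rfl⟩ | ⟨l, ⟨h2, h1, h3⟩, rfl, rfl⟩) <;>
          exact ⟨⟨h1, h2⟩, h3⟩
  · refine Set.disjoint_left.mpr ?_
    rintro _ ⟨l, -, rfl⟩ ⟨l', -, e⟩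
    exact hab (cons.inj e).1.symm

open Classical in
theorem sub (S : Finset α) (x y z : α) :
    {l ∈ LX r (S.erase z) | [x, y] <+ z :: l}.ncard =
      if z = x then (if y ∈ S.erase z then {l ∈ LX r (S.erase z) | True}.ncard else 0)
      else {l ∈ LX r (S.erase z) | [x, y] <+ l}.ncard := by
  split_ifs with h1 h2 <;> try subst h1
  · congr 1
    ext l
    refine and_congr_right fun hl => ?_
    simpa [← hl.2.1] using h2
  · rw [← Set.ncard_empty (List α)]
    congr 1
    ext l
    simp only [Set.mem_ofPred_eq, cons_sublist_cons, singleton_sublist, Set.mem_empty_iff_false,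
      iff_false, not_and]
    intro hl
    simpa [← hl.2.1] using h2
  · congr 1
    ext l
    refine and_congr_right fun hl => ?_
    rw [cons_sublist_cons']
    simp [Ne.symm h1]
end

section
variable {β : Type} (step : ℕ → ℕ → β → β → β)

def nextRow (i : ℕ) : List β → ℕ → β → List β
  | [], _, _ => []
  | p :: ps, j, q => step i j p q :: nextRow i ps (j + 1) (step i j p q)

def rows (d : β) (n : ℕ) : ℕ → List β
  | 0 => nextRow step 0 ((range' 0 n).map fun _ => d) 0 d
  | i + 1 => nextRow step (i + 1) (rows d n i) 0 d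

variable (F : ℕ → ℕ → β) (m n : ℕ)
  (h : ∀ i ≤ m, ∀ j < n, ∀ p q, (0 < i → p = F (i - 1) j) → (0 < j → q = F i (j - 1)) →
    step i j p q = F i j)
include h

theorem nextRow_eq (i : ℕ) (hi : i ≤ m) (f : ℕ → β) (hf : ∀ j, 0 < i → f j = F (i - 1) j) :
    ∀ k j q, j + k ≤ n → (0 < j → q = F i (j - 1)) →
      nextRow step i ((range' j k).map f) j q = (range' j k).map (F i)
  | 0, _, _, _, _ => rfl
  | k + 1, j, q, h1, h2 => by
    have e := h i hi j (by omega) _ q (hf j) h2
    simp only [range'_succ, map_cons, nextRow, e]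
    rw [nextRow_eq i hi f hf k (j + 1) (F i j) (by omega) (fun _ => rfl)]

theorem rows_eq (d : β) : ∀ i ≤ m, rows step d n i = (range' 0 n).map (F i)
  | 0, hi => nextRow_eq step F m n h 0 hi _ (by simp) n 0 d (by simp) (by simp)
  | i + 1, hi => by
    rw [rows, rows_eq d i (by omega)]
    exact nextRow_eq step F m n h _ hi _ (by simp) n 0 d (by simp) (by simp)
end

end Pool.Agent.H.MP_33fb9b_co
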