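import Pool.Agent.H.MP_33fb9b_co.A

namespace Pool.Agent.H.MP_33fb9b_co
open List

def u (k : ℕ) : ℕ := 735975242057410787708323858464 / 32 ^ k % 32
def v (k : ℕ) : ℕ := 24820096286139284753088723877888 / 32 ^ k % 32

abbrev T := Fin 20 ⊕ Fin 21

def ltb : T → T → Bool
  | .inl i, .inl k => decide (k.val < i.val)
  | .inr j, .inr k => decide (k.val < j.val)
  | .inl i, .inr j => decide (j.val < u i.val)
  | .inr j, .inl i => decide (i.val < v j.val)

def mem (i j : ℕ) : T → Bool
  | .inl a => decide (a.val < i)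
  | .inr b => decide (b.val < j)

def S (i j : ℕ) : Finset T := Finset.univ.filter (fun z => mem i j z = true)

def cA (i j : ℕ) : Bool := decide (0 < i) && (decide (j = 0) || decide (v (j - 1) < i))
def cB (i j : ℕ) : Bool := decide (0 < j) && (decide (i = 0) || decide (u (i - 1) < j))
def isA (i : ℕ) : T → Bool
  | .inl a => decide (a.val + 1 = i)
  | .inr _ => false
def isB (j : ℕ) : T → Bool
  | .inl _ => false
  | .inr b => decide (b.val + 1 = j)

def step (x y : T) (i j : ℕ) (p q : ℕ × ℕ) : ℕ × ℕ :=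
  if i = 0 ∧ j = 0 then (1, 0) else
  ((bif cA i j then p.1 else 0) + (bif cB i j then q.1 else 0),
   (bif cA i j then (bif isA i x then (bif mem (i - 1) j y then p.1 else 0) else p.2) else 0) +
   (bif cB i j then (bif isB j x then (bif mem i (j - 1) y then q.1 else 0) else q.2) else 0))

def good (x y : T) : ℕ × ℕ := (rows (step x y) (0, 0) 22 20).getD 21 (0, 0)

def r (a b : T) : Prop := ltb a b = true

noncomputable def F (x y : T) (i j : ℕ) : ℕ × ℕ :=
  ({l ∈ LX r (S i j) | True}.ncard, {l ∈ LX r (S i j) | [x, y] <+ l}.ncard)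

theorem umono : ∀ a b : Fin 20, a ≤ b → u a ≤ u b := by decide +kernel
theorem vmono : ∀ a b : Fin 21, a ≤ b → v a ≤ v b := by decide +kernel

theorem mnA (i j : ℕ) (hi : i ≤ 20) (hj : j < 22) (a : Fin 20) :
    Mn r (S i j) (.inl a) ↔ a.val = i - 1 ∧ cA i j = true := by
  simp only [Mn, S, Finset.mem_filter, Finset.mem_univ, true_and, Sum.forall, mem, r, ltb, cA,
    decide_eq_true_eq, ne_eq, Sum.inl.injEq, reduceCtorEq, not_false_eq_true, forall_const,
    Bool.and_eq_true, Bool.or_eq_true, Fin.ext_iff]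
  constructor
  · rintro ⟨h1, h2, h3⟩
    have := h2 ⟨i - 1, by omega⟩ (by simp only; omega)
    have := h3 ⟨j - 1, by omega⟩
    simp only at *
    omega
  · rintro ⟨h1, h2, h3⟩
    refine ⟨by omega, fun b hb _ => by omega, fun b hb => ?_⟩
    have := vmono b ⟨j - 1, by omega⟩ (by rw [Fin.le_def]; simp only; omega)
    simp only at this
    omega

theorem mnB (i j : ℕ) (hi : i ≤ 20) (hj : j < 22) (a : Fin 21) :
    Mn r (S i j) (.inr a) ↔ a.val = j - 1 ∧ cB i j = true := by
  simp only [Mn, S, Finset.mem_filter, Finset.mem_univ, true_and, Sum.forall, mem, r, ltb, cB,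
    decide_eq_true_eq, ne_eq, Sum.inr.injEq, reduceCtorEq, not_false_eq_true, forall_const,
    Bool.and_eq_true, Bool.or_eq_true, Fin.ext_iff]
  constructor
  · rintro ⟨h1, h3, h2⟩
    have := h2 ⟨j - 1, by omega⟩ (by simp only; omega)
    have := h3 ⟨i - 1, by omega⟩
    simp only at *
    omega
  · rintro ⟨h1, h2, h3⟩
    refine ⟨by omega, fun b hb => ?_, fun b hb _ => by omega⟩
    have := umono b ⟨i - 1, by omega⟩ (by rw [Fin.le_def]; simp only; omega)
    simp only at this
    omega

theorem erA (i j : ℕ) (a : Fin 20) (h : a.val = i - 1) (hi : 0 < i) :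
    (S i j).erase (.inl a) = S (i - 1) j := by
  ext z
  cases z <;> simp [S, mem, Fin.ext_iff]
  omega

theorem erB (i j : ℕ) (a : Fin 21) (h : a.val = j - 1) (hi : 0 < j) :
    (S i j).erase (.inr a) = S i (j - 1) := by
  ext z
  cases z <;> simp [S, mem, Fin.ext_iff]
  omega

theorem recF (x y : T) : ∀ i ≤ 20, ∀ j < 22, ∀ p q, (0 < i → p = F x y (i - 1) j) →
    (0 < j → q = F x y i (j - 1)) → step x y i j p q = F x y i j := by
  intro i hi j hj p q hp hq
  unfold step
  split_ifs with h0
  · obtain ⟨rfl, rfl⟩ := h0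
    have e : LX r (S 0 0) = {[]} := by
      have : S 0 0 = ∅ := by decide
      ext l
      simp only [this, LX, toFinset_eq_empty_iff, Set.mem_ofPred_eq, Set.mem_singleton_iff]
      exact ⟨fun h => h.2.1, fun h => by simp [h]⟩
    have : {l : List T | l = [] ∧ [x, y] <+ l} = ∅ := by
      ext l
      simp only [Set.mem_ofPred_eq, Set.mem_empty_iff_false, iff_false, not_and]
      rintro rfl
      simp
    simp [F, e, this]
  have hS : (S i j).Nonempty := by
    by_cases h : i = 0
    · exact ⟨.inr 0, by simp [S, mem]; omega⟩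
    · exact ⟨.inl 0, by simp [S, mem]; omega⟩
  let a : Fin 20 := ⟨i - 1, by omega⟩
  let b : Fin 21 := ⟨j - 1, by omega⟩
  have hm : ∀ z, Mn r (S i j) z → z = .inl a ∨ z = .inr b := by
    rintro (z | z) hz
    · exact Or.inl (congrArg _ (Fin.ext ((mnA i j hi hj z).mp hz).1))
    · exact Or.inr (congrArg _ (Fin.ext ((mnB i j hi hj z).mp hz).1))
  have kA : cA i j = true → 0 < i := by simp only [cA, Bool.and_eq_true, decide_eq_true_eq]; omega
  have kB : cB i j = true → 0 < j := by simp only [cB, Bool.and_eq_true, decide_eq_true_eq]; omega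
  have xA : 0 < i → (Sum.inl a = x ↔ isA i x = true) := by
    intro h
    cases x <;> simp [isA, Fin.ext_iff, a]
    omega
  have xB : 0 < j → (Sum.inr b = x ↔ isB j x = true) := by
    intro h
    cases x <;> simp [isB, Fin.ext_iff, b]
    omega
  have ys : ∀ i j, y ∈ S i j ↔ mem i j y = true := by simp [S]
  rw [F, two r _ hS _ _ (by simp) hm, two r _ hS _ _ (by simp) hm, sub, sub, mnA i j hi hj,
    mnB i j hi hj]
  simp only [a, b, true_and, Bool.cond_eq_ite]
  congr 2 <;> refine if_ctx_congr Iff.rfl (fun h => ?_) (fun _ => rfl)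
  · rw [erA i j a rfl (kA h), hp (kA h), F]
  · rw [erB i j b rfl (kB h), hq (kB h), F]
  · rw [erA i j a rfl (kA h), hp (kA h), F]
    simp only [ys, xA (kA h), a]
  · rw [erB i j b rfl (kB h), hq (kB h), F]
    simp only [ys, xB (kB h), b]

theorem good_eq (x y : T) : good x y = F x y 20 21 := by
  rw [good, rows_eq _ (F x y) 20 22 (recF x y) _ 20 le_rfl]
  rfl

theorem chk : ∀ x y : T, x ≠ y → ltb x y = false → ltb y x = false →
    (good x y).1 = 1583915616 ∧ ((good x y).2 * 1000000 < 348843 * 1583915616 ∨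
      (good y x).2 * 1000000 < 348843 * 1583915616) := by
  decide +kernel

theorem irr : ∀ x : T, ¬ r x x := by unfold r; decide +kernel
theorem trans : ∀ x y : T, r x y → ∀ z, r y z → r x z := by unfold r; decide +kernel

end Pool.Agent.H.MP_33fb9b_co
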